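import Pool.Agent.BED.Stmts
import Pool.Agent.Helper72_BE01.Alg

/-!
# Squad BED, row AL2: the algebra `L^∞` with the pointwise products
-/

namespace Pool.Agent.BED.H52

open Set Filter Topology MeasureTheory
open scoped InnerProductSpace ENNReal
open Pool.Agent.BE01 Pool.Agent.BE01.H72

/-- AL2. -/
theorem al2 : Al2Stmt := by
  intro s _ μ _
  refine ⟨Lp ℝ ∞ μ, ringX μ, algX μ, inferInstance, AA μ, ?_, ?_, ?_, ?_, ?_, ?_, ?_⟩
  · intro x
    filter_upwards [e_ae x, bd_ae x] with z h1 h2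
    rw [h1]
    exact h2
  · intro h C hC hb
    have hm : MemLp h ∞ μ := memLp_top_of_bound (Lp.aestronglyMeasurable h) C
      (by simpa only [Real.norm_eq_abs] using hb)
    refine ⟨hm.toLp h, ?_, ?_⟩
    · apply ext_ae
      exact (e_ae (hm.toLp h)).trans (MemLp.coeFn_toLp hm)
    · change ‖hm.toLp h‖ ≤ C
      have h1 := Lp.norm_le_of_ae_bound (f := hm.toLp h) hC (by
        filter_upwards [MemLp.coeFn_toLp hm, hb] with z h1 h2
        rw [h1, Real.norm_eq_abs]
        exact h2)
      simpa using h1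
  · intro x x'
    filter_upwards [e_ae ((ringX μ).toMul.mul x x'), e_ae x, e_ae x', mul_ae x x']
      with z h1 h2 h3 h4
    rw [h2, h3, ← h4, ← h1]
    rfl
  · filter_upwards [e_ae (oneX : Lp ℝ ∞ μ), oneX_ae (μ := μ)] with z h1 h2
    rw [← h2, ← h1]
    rfl
  · intro y
    exact inc_ae (by norm_num) y
  · intro x h
    filter_upwards [hL_ae ∞ 2 2 x h, e_ae x] with z h1 h2
    rw [h2]
    exact h1
  · intro y y'
    exact hL_ae 4 4 2 y y'

end Pool.Agent.BED.H52
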